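import Pool.Agent.Helper41.LD7.Defs
import Pool.Agent.Helper78.LD6.NR

/-!
# Project LD7: the resonances of a stage are covered by few short intervals
-/

set_option autoImplicit false

namespace Pool.Agent.Helper34.LD7

open Set MeasureTheory Filter Topology
open Pool.Agent.Helper41.LD7
open Pool.Agent.Helper41.LD6 (NR6)

private theorem big34 {F : Pm} (hF : F.Ok) {K : ℕ} (hK : F.Big K) :
    F.t * (F.Gp * F.E K) + 1 ≤ 2 ^ K ∧ 4 * K ≤ F.E K ∧ 10 ≤ K ∧ 3 * F.X ≤ F.E K := by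
  have hX : 1 ≤ F.X := hF.hP.trans hF.hPX
  have hZ : F.Z ^ 4 ≤ K := hK
  have hZ1 : 1000 * (F.X + 1) * 10 ≤ F.Z := by
    unfold Pm.Z
    exact Nat.mul_le_mul_left _ (by omega)
  have hZ2 : F.t * F.Gp ≤ F.Z := by
    unfold Pm.Z
    calc F.t * F.Gp = 1 * (F.t * F.Gp) := by ring
      _ ≤ 1000 * (F.X + 1) * (F.C₂ + F.R + F.t * F.Gp + F.D' + 10) :=
        Nat.mul_le_mul (by omega) (by omega)
  have hZ3 : F.d + 4 ≤ F.Z := by
    refine le_trans ?_ hZ2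
    have h1 : 40 ≤ F.Gp := by
      unfold Pm.Gp
      calc 40 = 1 * 40 := by norm_num
        _ ≤ F.X * (F.D + 40) := Nat.mul_le_mul hX (by omega)
    have h2 : F.t = 2 * (F.d + 1) := rfl
    rw [h2]
    calc F.d + 4 ≤ 2 * (F.d + 1) * 40 := by omega
      _ ≤ 2 * (F.d + 1) * F.Gp := Nat.mul_le_mul_left _ h1
  have hZK1 : F.Z ≤ K := le_trans (Nat.le_self_pow (by norm_num) _) hZ
  have hZK : F.Z ^ 2 ≤ K := by
    refine le_trans ?_ hZ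
    exact Nat.pow_le_pow_right (by omega) (by norm_num)
  have hK10 : 10 ≤ K := by omega
  have hE4 : 4 * K ≤ F.E K := by
    unfold Pm.E
    exact Nat.mul_le_mul_right _ (by omega)
  refine ⟨?_, hE4, hK10, by omega⟩
  have h1 : F.t * (F.Gp * F.E K) ≤ K ^ 2 := by
    calc F.t * (F.Gp * F.E K) = (F.t * F.Gp) * ((F.d + 4) * K) := by unfold Pm.E; ring
      _ ≤ F.Z * (F.Z * K) := Nat.mul_le_mul hZ2 (Nat.mul_le_mul_right _ hZ3)
      _ = F.Z ^ 2 * K := by ring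
      _ ≤ K * K := Nat.mul_le_mul_right _ hZK
      _ = K ^ 2 := by ring
  have h2 : ∀ n : ℕ, 10 ≤ n → n ^ 2 + 1 ≤ 2 ^ n := by
    intro n hn
    induction n, hn using Nat.le_induction with
    | base => norm_num
    | succ n hn ih =>
      have h3 : 2 ^ (n + 1) = 2 * 2 ^ n := by ring
      rw [h3]
      nlinarith
  exact (Nat.add_le_add_right h1 1).trans (h2 K hK10)

variable {F : Pm} {K : ℕ}

/-- the cover in the variable `y = x ^ (1 / P)` -/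
private theorem cover_root34 (hF : F.Ok) (hK : F.Big K) : ∃ S : Finset ℝ, S.card ≤ 2 ^ (75 * (F.d + 1) * F.E K) ∧
    ∀ x : ℝ, 1 ≤ x → (∀ y ∈ S, x ∉ Icc (y - (1 / 2) ^ (F.D₁ * F.E K + F.E K)) (y + (1 / 2) ^ (F.D₁ * F.E K + F.E K))) →
      NR6 F.t (F.t * (F.Gp * F.E K)) (2 ^ (3 * K)) (2 ^ (31 * F.E K)) ((1 / 2) ^ (F.D * F.E K)) x := by
  obtain ⟨hS, hE4, hK10, -⟩ := big34 hF hK
  set S := F.t * (F.Gp * F.E K) with hSdef
  set E₀ := F.E K with hE₀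
  obtain ⟨E, hEc, hE⟩ := Pool.Agent.Helper78.LD6.nonres_cover F.t S (2 ^ (31 * E₀) * (2 ^ (3 * K) + S)) (ρ := (1 / 2) ^ (F.D₁ * E₀ + E₀))
    (by positivity) (pow_le_one₀ (by norm_num) (by norm_num))
  refine ⟨E, ?_, ?_⟩
  · -- the count
    refine hEc.trans ?_
    have h1 : 2 ^ (3 * K) + S ≤ 2 ^ (3 * K + 1) := by
      have h2 : 2 ^ K ≤ 2 ^ (3 * K) := Nat.pow_le_pow_right (by norm_num) (by omega)
      have h3 : 2 ^ (3 * K + 1) = 2 * 2 ^ (3 * K) := by ring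
      omega
    have h2 : 2 * (2 ^ (31 * E₀) * (2 ^ (3 * K) + S)) + 1 ≤ 2 ^ (31 * E₀ + 3 * K + 3) := by
      have h3 : 2 ^ (31 * E₀) * (2 ^ (3 * K) + S) ≤ 2 ^ (31 * E₀ + 3 * K + 1) := by
        calc 2 ^ (31 * E₀) * (2 ^ (3 * K) + S) ≤ 2 ^ (31 * E₀) * 2 ^ (3 * K + 1) := Nat.mul_le_mul_left _ h1
          _ = 2 ^ (31 * E₀ + 3 * K + 1) := by ring
      have h4 : 1 ≤ 2 ^ (31 * E₀ + 3 * K + 1) := Nat.one_le_pow _ _ (by norm_num)
      have h5 : 2 ^ (31 * E₀ + 3 * K + 3) = 4 * 2 ^ (31 * E₀ + 3 * K + 1) := by ring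
      omega
    have h3 : (S + 1) * (2 * (2 ^ (31 * E₀) * (2 ^ (3 * K) + S)) + 1) + 1 ≤ 2 ^ (33 * E₀) := by
      have h4 : (S + 1) * (2 * (2 ^ (31 * E₀) * (2 ^ (3 * K) + S)) + 1) ≤ 2 ^ (31 * E₀ + 4 * K + 3) := by
        calc _ ≤ 2 ^ K * 2 ^ (31 * E₀ + 3 * K + 3) := Nat.mul_le_mul hS h2
          _ = 2 ^ (31 * E₀ + 4 * K + 3) := by ring
      have h5 : 1 ≤ 2 ^ (31 * E₀ + 4 * K + 3) := Nat.one_le_pow _ _ (by norm_num)
      have h6 : 2 ^ (31 * E₀ + 4 * K + 4) = 2 * 2 ^ (31 * E₀ + 4 * K + 3) := by ring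
      have h7 : 2 ^ (31 * E₀ + 4 * K + 4) ≤ 2 ^ (33 * E₀) := Nat.pow_le_pow_right (by norm_num) (by omega)
      omega
    calc ((S + 1) * (2 * (2 ^ (31 * E₀) * (2 ^ (3 * K) + S)) + 1) + 1) ^ F.t * 2 ^ F.t
        ≤ (2 ^ (33 * E₀)) ^ F.t * 2 ^ F.t := Nat.mul_le_mul_right _ (Nat.pow_le_pow_left h3 _)
      _ = 2 ^ ((33 * E₀ + 1) * F.t) := by rw [← pow_mul, ← pow_add]; congr 1; ring
      _ ≤ 2 ^ (75 * (F.d + 1) * E₀) := by
        apply Nat.pow_le_pow_right (by norm_num)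
        have h8 : F.t = 2 * (F.d + 1) := rfl
        rw [h8]
        calc (33 * E₀ + 1) * (2 * (F.d + 1)) ≤ (36 * E₀) * (2 * (F.d + 1)) := Nat.mul_le_mul_right _ (by omega)
          _ = 72 * ((F.d + 1) * E₀) := by ring
          _ ≤ 75 * ((F.d + 1) * E₀) := Nat.mul_le_mul_right _ (by norm_num)
          _ = 75 * (F.d + 1) * E₀ := by ring
  · intro x hx1 hxE τ hτ1 hτ2 I hI hIne hIt m hm
    have h1 := hE x hx1 hxE I (fun i => m i * ((τ : ℤ) + i)) hIt (fun i hi => Nat.lt_succ_iff.1 (Finset.mem_range.1 (hI hi))) ?_ ?_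
    · have h2 : ∑ i ∈ I, ((m i * ((τ : ℤ) + i) : ℤ) : ℝ) * x ^ i = ∑ i ∈ I, (m i : ℝ) * ((τ : ℝ) + i) * x ^ i := by
        refine Finset.sum_congr rfl fun i _ => ?_
        push_cast
        ring
      rw [h2] at h1
      refine le_trans ?_ h1
      -- `2 ^ (-D E) ≤ (ρ / 2) ^ t`
      have h3 : (1 / 2 : ℝ) ^ (F.D₁ * E₀ + E₀) / 2 = (1 / 2) ^ (F.D₁ * E₀ + E₀ + 1) := by ring
      rw [h3, ← pow_mul]
      apply pow_le_pow_of_le_one (by norm_num) (by norm_num)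
      have h4 : F.D = (F.D₁ + 2) * F.t := rfl
      rw [h4]
      calc (F.D₁ * E₀ + E₀ + 1) * F.t ≤ (F.D₁ * E₀ + E₀ + E₀) * F.t := Nat.mul_le_mul_right _ (by omega)
        _ = (F.D₁ + 2) * F.t * E₀ := by ring
    · intro i hi
      have h2 := (hm i hi).2
      have h3 : i ≤ S := Nat.lt_succ_iff.1 (Finset.mem_range.1 (hI hi))
      rw [abs_mul]
      push_cast
      have h4 : |((τ : ℤ) + i)| = (τ : ℤ) + i := abs_of_nonneg (by positivity)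
      rw [h4]
      have h5 : ((τ : ℤ) + i) ≤ 2 ^ (3 * K) + S := by
        have : τ + i ≤ 2 ^ (3 * K) + S := Nat.add_le_add hτ2 h3
        exact_mod_cast this
      have h6 : |m i| ≤ 2 ^ (31 * E₀) := by
        exact_mod_cast h2
      exact mul_le_mul h6 h5 (by positivity) (by positivity)
    · obtain ⟨i, hi⟩ := hIne
      refine ⟨i, hi, ?_⟩
      apply mul_ne_zero (hm i hi).1
      have : (1 : ℤ) ≤ τ := by exact_mod_cast hτ1
      have h0 : (0 : ℤ) ≤ i := by positivity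
      omega

/-- from `y` to `y ^ P` -/
private theorem pow_near34 {P X : ℕ} (hPX : P ≤ X) {x₂ y y₀ ρ : ℝ} (hy : 1 ≤ y) (hρ : 0 ≤ ρ) (hρ1 : ρ ≤ 1)
    (hyx : y ^ P ≤ x₂) (hx2 : x₂ ≤ 2 ^ X) (h : |y - y₀| ≤ ρ) : |y ^ P - y₀ ^ P| ≤ 2 ^ (3 * X) * ρ := by
  have h1 := abs_pow_sub_pow_le y y₀ P
  have h2 := abs_le.1 h
  have h3 : |y| = y := abs_of_nonneg (by linarith)
  have h4 : |y₀| ≤ y + 1 := abs_le.2 ⟨by linarith, by linarith⟩
  have h5 : max |y| |y₀| ≤ 2 * y := max_le (by rw [h3]; linarith) (h4.trans (by linarith))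
  have h6 : (1 : ℝ) ≤ 2 * y := by linarith
  have h7 : (max |y| |y₀|) ^ (P - 1) ≤ 2 ^ (2 * X) := by
    calc (max |y| |y₀|) ^ (P - 1) ≤ (2 * y) ^ (P - 1) := pow_le_pow_left₀ (le_trans (abs_nonneg _) (le_max_left _ _)) h5 _
      _ ≤ (2 * y) ^ P := pow_le_pow_right₀ h6 (Nat.sub_le _ _)
      _ = 2 ^ P * y ^ P := mul_pow _ _ _
      _ ≤ 2 ^ X * 2 ^ X := mul_le_mul (pow_le_pow_right₀ (by norm_num) hPX) (hyx.trans hx2) (by positivity) (by positivity)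
      _ = 2 ^ (2 * X) := by ring
  have h8 : (P : ℝ) ≤ 2 ^ X := by
    have : P ≤ 2 ^ X := hPX.trans (Nat.lt_two_pow_self).le
    exact_mod_cast this
  calc |y ^ P - y₀ ^ P| ≤ |y - y₀| * P * max |y| |y₀| ^ (P - 1) := h1
    _ ≤ ρ * 2 ^ X * 2 ^ (2 * X) := mul_le_mul (mul_le_mul h h8 (by positivity) hρ) h7 (by positivity) (by positivity)
    _ = 2 ^ (3 * X) * ρ := by ring

/-- **V7**: the resonances of a stage are covered by few short intervals -/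
theorem nr_cover (hF : F.Ok) (hK : F.Big K) : ∃ S : Finset ℝ, S.card ≤ 2 ^ (75 * (F.d + 1) * F.E K) ∧
    ∀ x ∈ Icc F.x₁ F.x₂, (∀ y ∈ S, x ∉ Icc (y - (1 / 2) ^ (F.D₁ * F.E K)) (y + (1 / 2) ^ (F.D₁ * F.E K))) → F.NR K x := by
  classical
  obtain ⟨-, -, -, hXE⟩ := big34 hF hK
  obtain ⟨S, hS, hS2⟩ := cover_root34 hF hK
  refine ⟨S.image fun y => y ^ F.P, Finset.card_image_le.trans hS, ?_⟩
  intro x hx hxS
  have hP0 : F.P ≠ 0 := by have := hF.hP; omega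
  have hx1 : 1 ≤ x := hF.h1.le.trans hx.1
  have hx0 : 0 ≤ x := by linarith
  have hy1 : 1 ≤ x ^ (1 / (F.P : ℝ)) := Real.one_le_rpow hx1 (by positivity)
  have hyP : (x ^ (1 / (F.P : ℝ))) ^ F.P = x := by
    rw [one_div]
    exact Real.rpow_inv_natCast_pow hx0 hP0
  refine hS2 _ hy1 fun y hy hcon => ?_
  apply hxS (y ^ F.P) (Finset.mem_image_of_mem _ hy)
  have h1 : |x ^ (1 / (F.P : ℝ)) - y| ≤ (1 / 2) ^ (F.D₁ * F.E K + F.E K) :=
    abs_le.2 ⟨by linarith [hcon.1], by linarith [hcon.2]⟩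
  have h2 := pow_near34 (P := F.P) (X := F.X) (x₂ := F.x₂) hF.hPX hy1 (by positivity) (pow_le_one₀ (by norm_num) (by norm_num))
    (by rw [hyP]; exact hx.2) hF.hx2 h1
  rw [hyP] at h2
  have h3 : (2 : ℝ) ^ (3 * F.X) * (1 / 2) ^ (F.D₁ * F.E K + F.E K) ≤ (1 / 2) ^ (F.D₁ * F.E K) := by
    have h4 : (2 : ℝ) ^ (3 * F.X) * (1 / 2) ^ (F.E K) ≤ 1 := by
      calc (2 : ℝ) ^ (3 * F.X) * (1 / 2) ^ (F.E K) ≤ 2 ^ (F.E K) * (1 / 2) ^ (F.E K) :=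
            mul_le_mul_of_nonneg_right (pow_le_pow_right₀ (by norm_num) hXE) (by positivity)
        _ = 1 := by rw [← mul_pow]; norm_num
    calc (2 : ℝ) ^ (3 * F.X) * (1 / 2) ^ (F.D₁ * F.E K + F.E K) = (1 / 2) ^ (F.D₁ * F.E K) * ((2 : ℝ) ^ (3 * F.X) * (1 / 2) ^ (F.E K)) := by
          rw [pow_add]; ring
      _ ≤ (1 / 2) ^ (F.D₁ * F.E K) * 1 := mul_le_mul_of_nonneg_left h4 (by positivity)
      _ = (1 / 2) ^ (F.D₁ * F.E K) := mul_one _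
  have h5 := abs_le.1 (h2.trans h3)
  exact ⟨by linarith, by linarith⟩

end Pool.Agent.Helper34.LD7
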